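import Mathlib

/-!
# A real inequality for the Mikado braid project (MP_d13a5e_al, GAP1, case N5)

Write `B = X - b Y - p x`. Then `b X = b B + Y / 2 + p b x` and `B ^ 2 = 1 - Y ^ 2 / 2 - (1 - p ^ 2) x ^ 2 + 2 p b Y x`, which is
concave in `x`; with `(x - 1) (K Y - 1 - x) ≥ 0` it is at least `p ^ 2 - Y ^ 2 + 2 b Y`. For `Y ≥ 1.15` use `B ≥ b`,
for `Y ≤ 1.15` use `B ^ 2 ≥ 0.9`.
-/

set_option autoImplicit false

namespace Pool.Agent.Helper99.DY

private theorem n5_b {b : ℝ} (hb : 2 * b ^ 2 = 1) (hb0 : 0 < b) :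
    0.7071 ≤ b ∧ b ≤ 0.70711 := by
  constructor <;> nlinarith

private theorem n5_p {p : ℝ} (hp : 4 * p ^ 2 = 2 * p + 1) (hp0 : 0 < p) :
    0.80901 ≤ p ∧ p ≤ 0.80902 := by
  constructor <;> nlinarith

private theorem n5_e {c e : ℝ} (hc : 2.2882 ≤ c) (he1 : e ≤ 1)
    (he : e ^ 2 - c * e + 1 = 0) : e ≤ 0.5884 := by
  by_contra h
  push Not at h
  nlinarith [mul_nonneg (sub_nonneg.2 h.le) (sub_nonneg.2 he1), mul_nonneg (sub_nonneg.2 hc)
    (show (0 : ℝ) ≤ e by linarith)]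

private theorem n5_pb {p b : ℝ} (p1 : 0.80901 ≤ p) (b1 : 0.7071 ≤ b) : 0.57205 ≤ p * b := by
  have h := mul_le_mul p1 b1 (by norm_num) (by linarith)
  norm_num at h ⊢
  linarith

/-- the bound of `x` without `K` -/
private theorem n5_x {b p K Y x : ℝ} (b2 : b ≤ 0.70711) (p2 : p ≤ 0.80902) (hx : 1 ≤ x)
    (hY : 1 ≤ Y) (hK : K * (1 - p) = b) (hc : x ≤ K * Y - 1) :
    (1 - p) * (x + 1) ≤ b * Y ∧ x + 1 ≤ 3.7026 * Y := by
  have h1p : 0 ≤ 1 - p := by linarith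
  have h1 : (1 - p) * (x + 1) ≤ b * Y := by
    have h := mul_le_mul_of_nonneg_right (show x + 1 ≤ K * Y by linarith) h1p
    calc (1 - p) * (x + 1) = (x + 1) * (1 - p) := by ring
      _ ≤ K * Y * (1 - p) := h
      _ = K * (1 - p) * Y := by ring
      _ = b * Y := by rw [hK]
  refine ⟨h1, ?_⟩
  have h3 : 0.19098 * (x + 1) ≤ (1 - p) * (x + 1) :=
    mul_le_mul_of_nonneg_right (by linarith) (by linarith)
  have h4 : b * Y ≤ 0.70711 * Y := mul_le_mul_of_nonneg_right b2 (by linarith)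
  linarith

/-- concavity -/
private theorem n5_conc {b p Y x S : ℝ} (hb : 2 * b ^ 2 = 1) (hbY : 0 ≤ b * Y) (h1p' : 0 ≤ 1 + p)
    (hx : 1 ≤ x) (h1 : (1 - p) * (x + 1) ≤ b * Y)
    (hS : S = 1 - Y ^ 2 / 2 - (1 - p ^ 2) * x ^ 2 + 2 * (p * b) * Y * x) :
    p ^ 2 - Y ^ 2 + 2 * b * Y ≤ S := by
  have h7 := mul_le_mul_of_nonneg_right h1 (show (0 : ℝ) ≤ x - 1 by linarith)
  have h9 := mul_le_mul_of_nonneg_left h7 h1p'
  have h11 := mul_le_mul_of_nonneg_left h1 hbY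
  have e1 : (1 + p) * ((1 - p) * (x + 1) * (x - 1)) = (1 - p ^ 2) * x ^ 2 - (1 - p ^ 2) := by ring
  have e2 : (1 + p) * (b * Y * (x - 1)) =
      b * Y * x + p * b * Y * x - b * Y - p * b * Y := by ring
  have e3 : b * Y * ((1 - p) * (x + 1)) =
      b * Y * x - p * b * Y * x + b * Y - p * b * Y := by ring
  have e4 : b * Y * (b * Y) = Y ^ 2 / 2 := by
    calc b * Y * (b * Y) = (2 * b ^ 2) * Y ^ 2 / 2 := by ring
      _ = Y ^ 2 / 2 := by rw [hb, one_mul]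
  rw [e1, e2] at h9
  rw [e3, e4] at h11
  rw [hS]
  linarith

private theorem n5_num {b p Y B : ℝ} (b1 : 0.7071 ≤ b) (p1 : 0.80901 ≤ p) (hY : 1 ≤ Y)
    (hY2 : Y ≤ 1.15) (hB : b ≤ B) (h : p ^ 2 - Y ^ 2 + 2 * b * Y ≤ B ^ 2) : 0.66 ≤ b * B := by
  have h14 : 0.65 ≤ p ^ 2 := by
    have := pow_le_pow_left₀ (by norm_num) p1 2
    norm_num at this ⊢
    linarith
  have h15 : 0.7071 * Y ≤ b * Y := mul_le_mul_of_nonneg_right b1 (by linarith)
  have h13 : 0.9 ≤ B ^ 2 := by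
    have h16 := mul_nonneg (sub_nonneg.2 hY) (sub_nonneg.2 hY2)
    norm_num at h14 h15 h16 ⊢
    linarith
  have h16 : 0.94 ≤ B := by
    by_contra hcon
    push Not at hcon
    have h17 := pow_le_pow_left₀ (show 0 ≤ B by linarith) hcon.le 2
    norm_num at h13 h17
    linarith
  have h18 := mul_le_mul b1 h16 (by norm_num) (by linarith)
  norm_num at h18 ⊢
  linarith

theorem n5 {b p e K X Y x : ℝ} (hb : 2 * b ^ 2 = 1) (hb0 : 0 < b) (hp : 4 * p ^ 2 = 2 * p + 1)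
    (hp0 : 0 < p) (he0 : 0 < e) (he1 : e ≤ 1) (he : e ^ 2 - 4 * p * b * e + 1 = 0)
    (hY : 1 ≤ Y) (hx : 1 ≤ x)
    (hn : Y ^ 2 + X ^ 2 + x ^ 2 - 2 * b * X * Y - 2 * p * X * x = 1)
    (hB : b ≤ X - b * Y - p * x) (hK : K * (1 - p) = b) (hc : x ≤ K * Y - 1) :
    2 * b * (1 + e * x) < X := by
  obtain ⟨b1, b2⟩ := n5_b hb hb0
  obtain ⟨p1, p2⟩ := n5_p hp hp0
  have hpb := n5_pb p1 b1
  have e2 : e ≤ 0.5884 := by
    apply n5_e (c := 4 * p * b) _ he1 he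
    linarith
  obtain ⟨h1, h2⟩ := n5_x b2 p2 hx hY hK hc
  have hex : e * x ≤ p * b * x + 0.0164 * x := by
    have h3 : e ≤ p * b + 0.0164 := by linarith
    have h4 := mul_le_mul_of_nonneg_right h3 (show (0 : ℝ) ≤ x by linarith)
    linarith
  obtain ⟨B, hBdef⟩ : ∃ B, B = X - b * Y - p * x := ⟨_, rfl⟩
  rw [← hBdef] at hB
  have hX : X = B + b * Y + p * x := by rw [hBdef]; ring
  have hbX : b * X = b * B + Y / 2 + p * b * x := by
    rw [hX]
    calc b * (B + b * Y + p * x) = b * B + (2 * b ^ 2) * Y / 2 + p * b * x := by ring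
      _ = b * B + Y / 2 + p * b * x := by rw [hb, one_mul]
  have key : 1 + e * x < b * X := by
    rw [hbX]
    rcases le_total 1.15 Y with hY2 | hY2
    · have h5 : 1 / 2 ≤ b * B := by
        have h6 := mul_le_mul_of_nonneg_left hB hb0.le
        have h7 : b * b = 1 / 2 := by rw [← sq]; linarith
        linarith
      linarith
    · have hB2 : B ^ 2 = 1 - Y ^ 2 / 2 - (1 - p ^ 2) * x ^ 2 + 2 * (p * b) * Y * x := by
        have h5 : B ^ 2 = X ^ 2 - 2 * b * X * Y - 2 * p * X * x + (2 * b ^ 2) * Y ^ 2 / 2 +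
            2 * (p * b) * Y * x + p ^ 2 * x ^ 2 := by
          rw [hBdef]; ring
        rw [h5, hb]
        linarith
      have h12 := n5_conc hb (mul_nonneg hb0.le (by linarith)) (by linarith) hx h1 hB2
      have h17 := n5_num b1 p1 hY hY2 hB h12
      linarith
  calc 2 * b * (1 + e * x) < 2 * b * (b * X) := mul_lt_mul_of_pos_left key (by linarith)
    _ = (2 * b ^ 2) * X := by ring
    _ = X := by rw [hb, one_mul]

end Pool.Agent.Helper99.DY
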